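import Mathlib
import Pool.Agent.TH775.AC.Stmts
import Pool.Agent.Helper968.Schild.Starlike

set_option autoImplicit false

open Complex Metric Set Topology Filter
open scoped BigOperators

namespace Pool.Agent.TH775.AC

namespace H443Coef

open Pool.Agent.H713R2

lemma one_sub_ne {z : ℂ} (hz : z ∈ ball (0 : ℂ) 1) : 1 - z ≠ 0 := by
  intro h
  have : z = 1 := by linear_combination -h
  rw [this, mem_ball_zero_iff, norm_one] at hz
  exact lt_irrefl _ hz

lemma tc_congr {F G : ℂ → ℂ} {r : ℝ} (hr : 0 < r) (hF : DifferentiableOn ℂ F (ball 0 r))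
    (h : ∀ z ∈ ball (0 : ℂ) r, F z = G z) : tc F = tc G := by
  refine tc_unique (F := G) hr (hF.congr fun z hz => (h z hz).symm) ?_
  filter_upwards [ball_mem_nhds (0 : ℂ) hr] with x hx
  rw [← h x hx]
  exact hasSum_tc hF hx

lemma tc_add {F G : ℂ → ℂ} {r : ℝ} (hr : 0 < r) (hF : DifferentiableOn ℂ F (ball 0 r))
    (hG : DifferentiableOn ℂ G (ball 0 r)) (n : ℕ) :
    tc (fun x => F x + G x) n = tc F n + tc G n := by
  have h := tc_unique (a := fun n => tc F n + tc G n) (F := fun x => F x + G x) hr (hF.add hG) ?_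
  · rw [← h]
  · filter_upwards [ball_mem_nhds (0 : ℂ) hr] with x hx
    exact ((hasSum_tc hF hx).add (hasSum_tc hG hx)).congr_fun fun k => by ring

lemma tc_smul {F : ℂ → ℂ} {r : ℝ} (c : ℂ) (hr : 0 < r) (hF : DifferentiableOn ℂ F (ball 0 r))
    (n : ℕ) : tc (fun x => c * F x) n = c * tc F n := by
  have h := tc_unique (a := fun n => c * tc F n) (F := fun x => c * F x) hr
    (hF.const_mul c) ?_
  · rw [← h]
  · filter_upwards [ball_mem_nhds (0 : ℂ) hr] with x hx
    exact ((hasSum_tc hF hx).mul_left c).congr_fun fun k => by ring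

lemma tc_theta {F : ℂ → ℂ} {r : ℝ} (hr : 0 < r) (hF : DifferentiableOn ℂ F (ball 0 r)) (n : ℕ) :
    tc (fun x => x * deriv F x) n = n * tc F n := by
  have hd := hF.deriv isOpen_ball
  have h := tc_unique (a := fun n => (n : ℂ) * tc F n) (F := fun x => x * deriv F x) hr
    (differentiableOn_id.mul hd) ?_
  · rw [← h]
  · filter_upwards [ball_mem_nhds (0 : ℂ) hr] with x hx
    have h1 := (hasSum_tc hd hx).mul_left x
    have h2 : HasSum (fun k : ℕ => ((k + 1 : ℕ) : ℂ) * tc F (k + 1) * x ^ (k + 1))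
        (x * deriv F x) := by
      refine h1.congr_fun fun k => ?_
      rw [tc_deriv]
      push_cast
      ring
    have h3 := HasSum.zero_add (f := fun k : ℕ => (k : ℂ) * tc F k * x ^ k) h2
    simpa using h3

lemma tc_W {w : ℂ → ℂ} (hw : w = fun z : ℂ => (1 + z) / (1 - z)) :
    tc w 0 = 1 ∧ ∀ n : ℕ, tc w (n + 1) = 2 := by
  have hd : DifferentiableOn ℂ w (ball 0 1) := by
    rw [hw]
    intro z hz
    exact ((differentiableAt_const _).add differentiableAt_id |>.div
      ((differentiableAt_const _).sub differentiableAt_id)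
      (one_sub_ne hz)).differentiableWithinAt
  have h := tc_unique (a := fun n => if n = 0 then (1 : ℂ) else 2) (F := w) one_pos hd ?_
  · rw [← h]
    exact ⟨by simp, fun n => by simp⟩
  · filter_upwards [ball_mem_nhds (0 : ℂ) one_pos] with x hx
    have hx1 := one_sub_ne hx
    have h1 : HasSum (fun n : ℕ => 2 * x * x ^ n) (2 * x * (1 - x)⁻¹) :=
      (hasSum_geometric_of_norm_lt_one (mem_ball_zero_iff.1 hx)).mul_left _
    have h2 : HasSum (fun k : ℕ => (if k + 1 = 0 then (1 : ℂ) else 2) * x ^ (k + 1))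
        (2 * x * (1 - x)⁻¹) := by
      refine h1.congr_fun fun k => ?_
      rw [if_neg (Nat.succ_ne_zero k)]
      ring
    have h3 := HasSum.zero_add (f := fun k : ℕ => (if k = 0 then (1 : ℂ) else 2) * x ^ k) h2
    have h4 : w x = (if (0 : ℕ) = 0 then (1 : ℂ) else 2) * x ^ 0 + 2 * x * (1 - x)⁻¹ := by
      rw [hw]
      simp only [if_true, pow_zero, mul_one]
      field_simp
      ring
    rw [h4]
    exact h3

/-- the function `ρ` -/
noncomputable def R (m : ℂ → ℂ) (z : ℂ) : ℂ := 1 + 2 * z * m z / (1 - z)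

lemma R_der {α : ℝ} {L m : ℂ → ℂ} (h : KD α L m) {z : ℂ} (hz : z ∈ ball (0 : ℂ) 1) :
    HasDerivAt (R m)
      ((2 * m z + 2 * z * (1 - z) * deriv m z) / (1 - z) ^ 2) z := by
  have h1 := one_sub_ne hz
  have hm : HasDerivAt m (deriv m z) z :=
    (h.dm.differentiableAt (isOpen_ball.mem_nhds hz)).hasDerivAt
  have h2 : HasDerivAt (fun z : ℂ => 2 * z) 2 z := by
    simpa using (hasDerivAt_id z).const_mul (2 : ℂ)
  have h3 : HasDerivAt (fun z : ℂ => 1 - z) (-1) z := by
    simpa using (hasDerivAt_id z).const_sub (1 : ℂ)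
  refine (((h2.fun_mul hm).fun_div h3 h1).const_add 1).congr_deriv ?_
  field_simp
  ring

lemma R_diff {α : ℝ} {L m : ℂ → ℂ} (h : KD α L m) : DifferentiableOn ℂ (R m) (ball 0 1) :=
  fun _ hz => (R_der h hz).differentiableAt.differentiableWithinAt

lemma R_ode {α : ℝ} {L m : ℂ → ℂ} (h : KD α L m) {z : ℂ} (hz : z ∈ ball (0 : ℂ) 1) :
    R m z * R m z + α * (z * deriv (R m) z) = R m z * ((1 + z) / (1 - z)) := by
  rw [(R_der h hz).deriv]
  have h1 := one_sub_ne hz
  have hode := h.ode z hz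
  have e4 : (α : ℂ) * (z * ((2 * m z + 2 * z * (1 - z) * deriv m z) / (1 - z) ^ 2)) =
      2 * z * (1 - m z) / (1 - z) * R m z := by
    have hr : R m z = (1 - z + 2 * z * m z) / (1 - z) := by
      rw [R]; field_simp
    rw [hr, ← mul_div_assoc, ← mul_div_assoc, div_mul_div_comm, ← pow_two]
    congr 1
    linear_combination (2 * z) * hode
  rw [e4]
  have hr : (1 + z) / (1 - z) = R m z + 2 * z * (1 - m z) / (1 - z) := by
    rw [R]; field_simp; ring
  rw [hr]
  ring

lemma P_rec {α : ℝ} {L m : ℂ → ℂ} (h : KD α L m) (n : ℕ) :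
    (1 + (α : ℂ) * ((n : ℂ) + 1)) * tc (R m) (n + 1) =
      2 + ∑ k ∈ Finset.range n, tc (R m) (k + 1) * (2 - tc (R m) (n - k)) := by
  have hR := R_diff h
  have hR' := hR.deriv isOpen_ball
  have h1 : DifferentiableOn ℂ (fun z => R m z * R m z) (ball 0 1) := hR.mul hR
  have h2 : DifferentiableOn ℂ (fun z : ℂ => z * deriv (R m) z) (ball 0 1) :=
    differentiableOn_id.mul hR'
  have hw : DifferentiableOn ℂ (fun z : ℂ => (1 + z) / (1 - z)) (ball 0 1) := by
    intro z hz
    exact ((differentiableAt_const _).add differentiableAt_id |>.div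
      ((differentiableAt_const _).sub differentiableAt_id)
      (one_sub_ne hz)).differentiableWithinAt
  have e := congrFun (tc_congr one_pos (h1.add (h2.const_mul (α : ℂ)))
    (G := fun z => R m z * ((1 + z) / (1 - z)))
    (fun z hz => R_ode h hz)) (n + 1)
  have e1 := tc_add one_pos h1 (h2.const_mul (α : ℂ)) (n + 1)
  have e2 := e1.symm.trans e
  rw [tc_mul one_pos hR hR, tc_smul _ one_pos h2, tc_theta one_pos hR,
    tc_mul one_pos hR hw] at e2
  obtain ⟨w0, wn⟩ := tc_W (w := fun z : ℂ => (1 + z) / (1 - z)) rfl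
  rw [Finset.Nat.sum_antidiagonal_succ', Finset.Nat.sum_antidiagonal_succ',
    Finset.Nat.sum_antidiagonal_eq_sum_range_succ_mk,
    Finset.Nat.sum_antidiagonal_eq_sum_range_succ_mk, Finset.sum_range_succ',
    Finset.sum_range_succ'] at e2
  simp only [wn, w0, Nat.sub_zero] at e2
  have r0 : tc (R m) 0 = 1 := by
    rw [tc_zero, R]; simp
  rw [r0] at e2
  have e3 : ∑ k ∈ Finset.range n, tc (R m) (k + 1) * (2 - tc (R m) (n - k)) =
      ∑ k ∈ Finset.range n, tc (R m) (k + 1) * 2 -
        ∑ k ∈ Finset.range n, tc (R m) (k + 1) * tc (R m) (n - (k + 1) + 1) := by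
    rw [← Finset.sum_sub_distrib]
    refine Finset.sum_congr rfl fun k hk => ?_
    have hk' := Finset.mem_range.1 hk
    have : n - (k + 1) + 1 = n - k := by omega
    rw [this]
    ring
  rw [e3]
  push_cast at e2
  linear_combination e2

lemma PP_zero (α : ℝ) : PP α 0 = 1 := by rw [PP]

lemma PP_succ (α : ℝ) (m : ℕ) : PP α (m + 1) =
    (2 + ∑ j ∈ Finset.range m, PP α (j + 1) * (2 - PP α (m - j))) / (1 + α * ((m : ℝ) + 1)) := by
  rw [PP, Fin.sum_univ_eq_sum_range (fun j => PP α (j + 1) * (2 - PP α (m - j))) m]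

lemma P_eq {α : ℝ} {L m : ℂ → ℂ} (h : KD α L m) (hα : 0 < α) (n : ℕ) :
    tc (R m) n = (PP α n : ℂ) := by
  induction n using Nat.strong_induction_on with
  | _ n ih =>
    rcases n with _ | n
    · rw [PP_zero, tc_zero, R]; simp
    · rw [PP_succ]
      have hr := P_rec h n
      have hne : (1 + (α : ℂ) * ((n : ℂ) + 1)) ≠ 0 := by
        have : (0 : ℝ) < 1 + α * ((n : ℝ) + 1) := by positivity
        exact_mod_cast this.ne'
      push_cast
      rw [eq_div_iff hne, mul_comm, hr]
      congr 1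
      refine Finset.sum_congr rfl fun k hk => ?_
      have hk' := Finset.mem_range.1 hk
      rw [ih (k + 1) (by omega), ih (n - k) (by omega)]

lemma A_rec {α : ℝ} {L m : ℂ → ℂ} (h : KD α L m) (n : ℕ) :
    ((n : ℂ) + 1) * tc (fun z => z * Complex.exp (L z)) (n + 2) =
      ∑ k ∈ Finset.range (n + 1),
        tc (fun z => z * Complex.exp (L z)) (k + 1) * tc (R m) (n + 1 - k) := by
  have hR := R_diff h
  have hder := Pool.Agent.Helper968.Schild.starlike_aux_hasDeriv h.dL
  have hf : DifferentiableOn ℂ (fun z => z * Complex.exp (L z)) (ball 0 1) :=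
    fun z hz => (hder z hz).differentiableAt.differentiableWithinAt
  have e := congrFun (tc_congr one_pos (differentiableOn_id.mul (hf.deriv isOpen_ball))
    (G := fun z => (z * Complex.exp (L z)) * R m z)
    (fun z hz => by
      simp only [Pi.mul_apply, id]
      rw [(hder z hz).deriv, h.derivL z hz, R]
      ring)) (n + 2)
  have e1 := tc_theta one_pos hf (n + 2)
  have e2 := e1.symm.trans e
  rw [tc_mul one_pos hf hR, Finset.Nat.sum_antidiagonal_succ',
    Finset.Nat.sum_antidiagonal_eq_sum_range_succ_mk, Finset.sum_range_succ'] at e2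
  have r0 : tc (R m) 0 = 1 := by
    rw [tc_zero, R]; simp
  have f0 : tc (fun z => z * Complex.exp (L z)) 0 = 0 := by
    rw [tc_zero]; simp
  simp only [r0, f0, zero_mul, add_zero, mul_one, Nat.add_sub_add_right] at e2
  have e3 : ∑ k ∈ Finset.range (n + 1),
        tc (fun z => z * Complex.exp (L z)) (k + 1) * tc (R m) (n + 1 - k) =
      ∑ k ∈ Finset.range (n + 1),
        tc (fun z => z * Complex.exp (L z)) (k + 1) * tc (R m) (n - k + 1) := by
    refine Finset.sum_congr rfl fun k hk => ?_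
    have hk' := Finset.mem_range.1 hk
    have : n - k + 1 = n + 1 - k := by omega
    rw [this]
  rw [e3]
  push_cast at e2
  linear_combination e2

lemma Acoef_succ (α : ℝ) (n : ℕ) : Acoef α (n + 2) =
    (∑ k ∈ Finset.range (n + 1), PP α (n + 1 - k) * Acoef α (k + 1)) / ((n : ℝ) + 1) := by
  rw [Acoef, Fin.sum_univ_eq_sum_range (fun k => PP α (n + 1 - k) * Acoef α (k + 1)) (n + 1)]

lemma A_eq {α : ℝ} {L m : ℂ → ℂ} (h : KD α L m) (hα : 0 < α) (n : ℕ) :
    tc (fun z => z * Complex.exp (L z)) n = (Acoef α n : ℂ) := by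
  induction n using Nat.strong_induction_on with
  | _ n ih =>
    rcases n with _ | _ | n
    · rw [Acoef, tc_zero]; simp
    · have h00 : (0:ℂ) ∈ ball (0:ℂ) 1 := mem_ball_self one_pos
      have hder := Pool.Agent.Helper968.Schild.starlike_aux_hasDeriv h.dL 0 h00
      rw [Acoef, tc]
      simp only [zero_add, Nat.factorial_one, Nat.cast_one, inv_one, one_mul, iteratedDeriv_one]
      rw [hder.deriv, h.L0]
      simp
    · rw [Acoef_succ]
      have hr := A_rec h n
      have hne : ((n : ℂ) + 1) ≠ 0 := by exact_mod_cast Nat.succ_ne_zero n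
      push_cast
      rw [eq_div_iff hne, mul_comm, hr]
      refine Finset.sum_congr rfl fun k hk => ?_
      have hk' := Finset.mem_range.1 hk
      rw [ih (k + 1) (by omega), P_eq h hα, mul_comm]

lemma CN_le (N : ℕ) (v : Fin N → ℂ) (hv : v ∈ CN N) (j : Fin N) : ‖v j‖ ≤ 1 := by
  have hc : Convex ℝ {v : Fin N → ℂ | ‖v j‖ ≤ 1} := by
    intro x hx y hy a b ha hb hab
    simp only [Set.mem_ofPred_eq, Pi.add_apply, Pi.smul_apply] at *
    calc ‖a • x j + b • y j‖ ≤ ‖a • x j‖ + ‖b • y j‖ := norm_add_le _ _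
      _ = a * ‖x j‖ + b * ‖y j‖ := by
        rw [norm_smul, norm_smul, Real.norm_of_nonneg ha, Real.norm_of_nonneg hb]
      _ ≤ a * 1 + b * 1 := by gcongr
      _ = 1 := by linarith
  have hs : CN N ⊆ {v : Fin N → ℂ | ‖v j‖ ≤ 1} := by
    refine convexHull_min ?_ hc
    rintro _ ⟨x, hx, rfl⟩
    simp only [Set.mem_ofPred_eq, gam, norm_pow]
    rw [mem_sphere_zero_iff_norm.1 hx, one_pow]
  exact hs hv

lemma PP_le (hHull : S_HULL) {α : ℝ} {L m : ℂ → ℂ} (h : KD α L m) (hα : 0 < α) (n : ℕ) :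
    PP α (n + 1) ≤ 2 := by
  have hR := R_diff h
  have hq : DifferentiableOn ℂ (fun z => (1 / 2 : ℂ) * (1 + R m z)) (ball 0 1) :=
    (hR.const_add 1).const_mul _
  have hmem := hHull (n + 1) (fun z => (1 / 2 : ℂ) * (1 + R m z)) 1 one_pos hq
    (by simp [R]; norm_num) ?_
  · have h1 := CN_le _ _ hmem ⟨n, by omega⟩
    have h2 : tc (fun z => (1 / 2 : ℂ) * (1 + R m z)) (n + 1) = (1 / 2 : ℂ) * tc (R m) (n + 1) := by
      rw [tc_smul _ one_pos (hR.const_add 1), tc_add one_pos (differentiableOn_const _) hR]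
      have : tc (fun _ : ℂ => (1 : ℂ)) (n + 1) = 0 := by
        unfold tc
        rw [iteratedDeriv_const]
        simp
      rw [this, zero_add]
    simp only [h2, P_eq h hα] at h1
    simp only [Complex.ofReal_one, div_one, norm_mul, Complex.norm_real, one_div, norm_inv,
      Complex.norm_ofNat, Real.norm_eq_abs] at h1
    have h3 := le_abs_self (PP α (n + 1))
    linarith
  · intro z hz
    have h1 := h.rho z hz
    have h2 : ((1 / 2 : ℂ) * (1 + R m z)).re = (1 + (R m z).re) / 2 := by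
      simp [Complex.mul_re]
      ring
    rw [h2, R]
    linarith

lemma PP_nonneg (hHull : S_HULL) {α : ℝ} {L m : ℂ → ℂ} (h : KD α L m) (hα : 0 < α) (n : ℕ) :
    0 ≤ PP α n := by
  induction n using Nat.strong_induction_on with
  | _ n ih =>
    rcases n with _ | n
    · rw [PP_zero]; norm_num
    · rw [PP_succ]
      refine div_nonneg (add_nonneg (by norm_num) (Finset.sum_nonneg fun k hk => ?_)) (by positivity)
      have hk' := Finset.mem_range.1 hk
      refine mul_nonneg (ih _ (by omega)) ?_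
      obtain ⟨j, hj⟩ : ∃ j, n - k = j + 1 := ⟨n - k - 1, by omega⟩
      rw [hj]
      have := PP_le hHull h hα j
      linarith

lemma A_nonneg (hHull : S_HULL) {α : ℝ} {L m : ℂ → ℂ} (h : KD α L m) (hα : 0 < α) (n : ℕ) :
    0 ≤ Acoef α n := by
  induction n using Nat.strong_induction_on with
  | _ n ih =>
    rcases n with _ | _ | n
    · rw [Acoef]
    · rw [Acoef]; norm_num
    · rw [Acoef_succ]
      refine div_nonneg (Finset.sum_nonneg fun k hk => ?_) (by positivity)
      have hk' := Finset.mem_range.1 hk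
      exact mul_nonneg (PP_nonneg hHull h hα _) (ih _ (by omega))

end H443Coef

open H443Coef in
theorem coef_of (hHull : S_HULL) : S_COEF := by
  intro α L m h0 h1 h n
  exact ⟨A_eq h h0 n, A_nonneg hHull h h0 n⟩

end Pool.Agent.TH775.AC
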