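import Mathlib
import Pool.Agent.TH775.AC.Stmts
import Pool.Agent.Helper968.Schild.Starlike

set_option autoImplicit false

open Complex Metric Set

namespace Pool.Agent.TH775.AC

namespace H443Ext

lemma one_sub_ne {z : ℂ} (hz : z ∈ ball (0 : ℂ) 1) : 1 - z ≠ 0 := by
  intro h
  have : z = 1 := by linear_combination -h
  rw [this, mem_ball_zero_iff, norm_one] at hz
  exact lt_irrefl _ hz

lemma mob_re {z : ℂ} (hz : z ∈ ball (0 : ℂ) 1) : 0 < ((1 + z) / (1 - z)).re := by
  have h1 := one_sub_ne hz
  rw [mem_ball_zero_iff] at hz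
  have h2 : z.re * z.re + z.im * z.im < 1 := by
    have h3 : ‖z‖ ^ 2 < 1 := by
      have := norm_nonneg z
      nlinarith
    rw [← Complex.normSq_eq_norm_sq, Complex.normSq_apply] at h3
    exact h3
  have h4 : 0 < Complex.normSq (1 - z) := Complex.normSq_pos.2 h1
  rw [Complex.div_re]
  simp only [Complex.add_re, Complex.one_re, Complex.sub_re, Complex.add_im, Complex.one_im,
    Complex.sub_im, zero_add, zero_sub]
  have : (1 + z.re) * (1 - z.re) / Complex.normSq (1 - z) +
      z.im * (-z.im) / Complex.normSq (1 - z) =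
      (1 - (z.re * z.re + z.im * z.im)) / Complex.normSq (1 - z) := by ring
  rw [this]
  exact div_pos (by linarith) h4

lemma rho_eq {α : ℝ} {L m : ℂ → ℂ} (h : KD α L m) {z : ℂ} (hz : z ∈ ball (0 : ℂ) 1) :
    1 + z * deriv L z = 1 + 2 * z * m z / (1 - z) := by
  rw [h.derivL z hz]
  ring

lemma rho_der {α : ℝ} {L m : ℂ → ℂ} (h : KD α L m) {z : ℂ} (hz : z ∈ ball (0 : ℂ) 1) :
    HasDerivAt (fun z => 1 + 2 * z * m z / (1 - z))
      ((2 * m z + 2 * z * (1 - z) * deriv m z) / (1 - z) ^ 2) z := by
  have h1 := one_sub_ne hz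
  have hm : HasDerivAt m (deriv m z) z :=
    (h.dm.differentiableAt (isOpen_ball.mem_nhds hz)).hasDerivAt
  have h2 : HasDerivAt (fun z : ℂ => 2 * z) 2 z := by
    simpa using (hasDerivAt_id z).const_mul (2 : ℂ)
  have h3 : HasDerivAt (fun z : ℂ => 1 - z) (-1) z := by
    simpa using (hasDerivAt_id z).const_sub (1 : ℂ)
  refine (((h2.fun_mul hm).fun_div h3 h1).const_add 1).congr_deriv ?_
  field_simp
  ring

end H443Ext

open H443Ext Pool.Agent.Helper968.Schild in
theorem ext_of : S_EXT := by
  intro α L m h0 h01 h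
  have hpos : ∀ z ∈ ball (0:ℂ) 1, 0 < (1 + z * deriv L z).re := fun z hz => by
    rw [rho_eq h hz]; exact h.rho z hz
  have hder := starlike_aux_hasDeriv h.dL
  have h00 : (0:ℂ) ∈ ball (0:ℂ) 1 := mem_ball_self one_pos
  refine ⟨⟨?_, (starlike_of_pos h.dL hpos).1, by simp, ?_⟩, ?_⟩
  · intro z hz
    exact (hder z hz).differentiableAt.differentiableWithinAt
  · rw [(hder 0 h00).deriv, h.L0]
    simp
  · intro z hz hz0
    have h1 := one_sub_ne hz
    set ρ : ℂ := 1 + 2 * z * m z / (1 - z) with hρ
    have hρ0 : ρ ≠ 0 := by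
      intro hh
      have := h.rho z hz
      rw [← hρ, hh] at this
      simp at this
    have d1 : deriv (fun z => z * Complex.exp (L z)) z = Complex.exp (L z) * ρ := by
      rw [(hder z hz).deriv, rho_eq h hz]
    have hev : deriv (fun z => z * Complex.exp (L z)) =ᶠ[nhds z]
        fun z => Complex.exp (L z) * (1 + 2 * z * m z / (1 - z)) := by
      filter_upwards [isOpen_ball.mem_nhds hz] with x hx
      rw [(hder x hx).deriv, rho_eq h hx]
    have dL : HasDerivAt L (deriv L z) z :=
      (h.dL.differentiableAt (isOpen_ball.mem_nhds hz)).hasDerivAt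
    have d2 : deriv (deriv (fun z => z * Complex.exp (L z))) z =
        Complex.exp (L z) * deriv L z * ρ +
          Complex.exp (L z) * ((2 * m z + 2 * z * (1 - z) * deriv m z) / (1 - z) ^ 2) := by
      rw [hev.deriv_eq]
      exact (dL.cexp.fun_mul (rho_der h hz)).deriv
    have hexp := Complex.exp_ne_zero (L z)
    have key : (α : ℂ) * (1 + z * deriv (deriv fun z => z * Complex.exp (L z)) z /
        deriv (fun z => z * Complex.exp (L z)) z) +
        (1 - (α : ℂ)) * (z * deriv (fun z => z * Complex.exp (L z)) z /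
          (z * Complex.exp (L z))) = (1 + z) / (1 - z) := by
      rw [d1, d2]
      have e1 : z * (Complex.exp (L z) * deriv L z * ρ +
          Complex.exp (L z) * ((2 * m z + 2 * z * (1 - z) * deriv m z) / (1 - z) ^ 2)) /
          (Complex.exp (L z) * ρ) =
          z * deriv L z + z * ((2 * m z + 2 * z * (1 - z) * deriv m z) / (1 - z) ^ 2) / ρ := by
        field_simp
      have e2 : z * (Complex.exp (L z) * ρ) / (z * Complex.exp (L z)) = ρ := by
        field_simp
      rw [e1, e2]
      have e3 : z * deriv L z = ρ - 1 := by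
        rw [hρ, ← rho_eq h hz]; ring
      rw [e3]
      have hode := h.ode z hz
      have e4 : (α : ℂ) * (z * ((2 * m z + 2 * z * (1 - z) * deriv m z) / (1 - z) ^ 2)) =
          2 * z * (1 - m z) / (1 - z) * ρ := by
        have hr : ρ = (1 - z + 2 * z * m z) / (1 - z) := by
          rw [hρ]; field_simp
        rw [hr, ← mul_div_assoc, ← mul_div_assoc, div_mul_div_comm, ← pow_two]
        congr 1
        linear_combination (2 * z) * hode
      have e5 : (α : ℂ) * (z * ((2 * m z + 2 * z * (1 - z) * deriv m z) / (1 - z) ^ 2) / ρ) =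
          2 * z * (1 - m z) / (1 - z) := by
        rw [← mul_div_assoc, e4]
        field_simp
      have e6 : (α : ℂ) * (1 + (ρ - 1 +
          z * ((2 * m z + 2 * z * (1 - z) * deriv m z) / (1 - z) ^ 2) / ρ)) +
          (1 - (α : ℂ)) * ρ = ρ + 2 * z * (1 - m z) / (1 - z) := by
        rw [← e5]; ring
      rw [e6, hρ]
      field_simp
      ring
    rw [key]
    exact mob_re hz

end Pool.Agent.TH775.AC
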